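import Mathlib

set_option autoImplicit false

/-!
Lazy walks in a graph, tours of subcubes of the hypercube.
-/

namespace Pool.Agent.K3h1.Rdv

variable {V : Type*}

/-- there is a lazy walk with `T` steps from `u` to `v` that visits all points of `S` -/
def Tour (G : SimpleGraph V) (T : ℕ) (u v : V) (S : Set V) : Prop :=
  ∃ w : ℕ → V, w 0 = u ∧ w T = v ∧ (∀ t < T, w (t + 1) = w t ∨ G.Adj (w t) (w (t + 1))) ∧
    ∀ x ∈ S, ∃ t ≤ T, w t = x

variable {G : SimpleGraph V}

theorem Tour.mono {T : ℕ} {u v : V} {S S' : Set V} (h : Tour G T u v S) (hS : S' ⊆ S) :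
    Tour G T u v S' := by
  obtain ⟨w, h1, h2, h3, h4⟩ := h
  exact ⟨w, h1, h2, h3, fun x hx => h4 x (hS hx)⟩

theorem Tour.trans {T1 T2 : ℕ} {u v z : V} {S1 S2 : Set V} (h1 : Tour G T1 u v S1)
    (h2 : Tour G T2 v z S2) : Tour G (T1 + T2) u z (S1 ∪ S2) := by
  obtain ⟨w1, a1, a2, a3, a4⟩ := h1
  obtain ⟨w2, b1, b2, b3, b4⟩ := h2
  refine ⟨fun t => if t ≤ T1 then w1 t else w2 (t - T1), ?_, ?_, ?_, ?_⟩
  · simp [a1]
  · by_cases h : T2 = 0
    · subst h
      simp only [add_zero, le_refl, if_true]
      rw [a2, ← b1, b2]
    · have : ¬ T1 + T2 ≤ T1 := by omega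
      simp only [this, if_false, Nat.add_sub_cancel_left]
      exact b2
  · intro t ht
    by_cases h : t < T1
    · have e1 : t ≤ T1 := h.le
      have e2 : t + 1 ≤ T1 := h
      simp only [e1, e2, if_true]
      exact a3 t h
    · have e2 : ¬ t + 1 ≤ T1 := by omega
      by_cases e1 : t ≤ T1
      · have e3 : t = T1 := by omega
        subst e3
        simp only [le_refl, e2, if_true, if_false, Nat.add_sub_cancel_left]
        rw [a2, ← b1]
        exact b3 0 (by omega)
      · simp only [e1, e2, if_false]
        have e4 : t + 1 - T1 = t - T1 + 1 := by omega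
        rw [e4]
        exact b3 (t - T1) (by omega)
  · rintro x (hx | hx)
    · obtain ⟨t, ht, hw⟩ := a4 x hx
      exact ⟨t, by omega, by simp [ht, hw]⟩
    · obtain ⟨t, ht, hw⟩ := b4 x hx
      refine ⟨T1 + t, by omega, ?_⟩
      by_cases h0 : t = 0
      · subst h0
        simp only [add_zero, le_refl, if_true]
        rw [a2, ← b1, hw]
      · have : ¬ T1 + t ≤ T1 := by omega
        simp only [this, if_false, Nat.add_sub_cancel_left]
        exact hw

theorem Tour.refl (u : V) : Tour G 0 u u {u} :=
  ⟨fun _ => u, rfl, rfl, fun _ _ => Or.inl rfl, fun x hx => ⟨0, le_rfl, hx.symm⟩⟩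

theorem Tour.stay (T : ℕ) (u : V) : Tour G T u u ∅ :=
  ⟨fun _ => u, rfl, rfl, fun _ _ => Or.inl rfl, fun _ hx => absurd hx (Set.notMem_empty _)⟩

theorem Tour.pad {T T' : ℕ} {u v : V} {S : Set V} (h : Tour G T u v S) (hT : T ≤ T') :
    Tour G T' u v S := by
  have := h.trans (Tour.stay (T' - T) v)
  rw [Nat.add_sub_cancel' hT, Set.union_empty] at this
  exact this

theorem Tour.step {u v : V} (h : G.Adj u v) : Tour G 1 u v ∅ := by
  refine ⟨fun t => if t = 0 then u else v, by simp, by simp, ?_, fun _ hx =>
    absurd hx (Set.notMem_empty _)⟩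
  intro t ht
  have : t = 0 := by omega
  subst this
  right
  simpa using h

variable {ι : Type*} [Fintype ι] [DecidableEq ι]

/-- the hypercube graph on the functions `ι → Bool` -/
def cube (ι : Type*) [Fintype ι] [DecidableEq ι] : SimpleGraph (ι → Bool) where
  Adj x y := hammingDist x y = 1
  symm := ⟨fun x y h => by rwa [hammingDist_comm]⟩
  loopless := ⟨fun x h => by simp at h⟩

/-- change one coordinate -/
def flip (a : ι) (u : ι → Bool) : ι → Bool := Function.update u a (!u a)

theorem adj_flip (a : ι) (u : ι → Bool) : (cube ι).Adj u (flip a u) := by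
  change hammingDist u (flip a u) = 1
  have h : hammingDist u (flip a u) = (Finset.univ.filter (fun i => u i ≠ flip a u i)).card := rfl
  rw [h, Finset.card_eq_one]
  refine ⟨a, ?_⟩
  ext i
  rw [Finset.mem_filter, Finset.mem_singleton]
  by_cases h : i = a
  · subst h; simp [flip]
  · simp [flip, h]

theorem flip_of_ne {a i : ι} (u : ι → Bool) (h : i ≠ a) : flip a u i = u i := by
  simp [flip, h]

theorem flip_self (a : ι) (u : ι → Bool) : flip a u a = !u a := by
  simp [flip]

/-- all coordinates in `S` are run through, the others are fixed -/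
theorem tour_free (S : Finset ι) : ∀ u : ι → Bool, ∃ v, (∀ i ∉ S, v i = u i) ∧
    Tour (cube ι) (2 ^ S.card - 1) u v {x | ∀ i ∉ S, x i = u i} := by
  induction S using Finset.induction_on with
  | empty =>
    intro u
    refine ⟨u, fun _ _ => rfl, ?_⟩
    have h : ({x | ∀ i ∉ (∅ : Finset ι), x i = u i} : Set (ι → Bool)) = {u} := by
      ext x
      simp only [Finset.notMem_empty, not_false_eq_true, forall_const, Set.mem_singleton_iff]
      exact ⟨fun h => funext h, fun h i => by rw [h]⟩
    rw [h]
    exact Tour.refl u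
  | insert a S ha ih =>
    intro u
    obtain ⟨v, hv, h1⟩ := ih u
    obtain ⟨z, hz, h2⟩ := ih (flip a v)
    refine ⟨z, ?_, ?_⟩
    · intro i hi
      simp only [Finset.mem_insert, not_or] at hi
      rw [hz i hi.2, flip_of_ne _ hi.1, hv i hi.2]
    · have h3 := (h1.trans (Tour.step (adj_flip a v))).trans h2
      rw [Finset.card_insert_of_notMem ha]
      have hpos : 1 ≤ 2 ^ S.card := Nat.one_le_two_pow
      have e : 2 ^ S.card - 1 + 1 + (2 ^ S.card - 1) = 2 ^ (S.card + 1) - 1 := by
        rw [pow_succ]; omega
      rw [e] at h3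
      refine h3.mono ?_
      intro x hx
      by_cases hxa : x a = u a
      · left; left
        intro i hi
        by_cases hia : i = a
        · rw [hia, hxa]
        · exact hx i (by simp [hia, hi])
      · right
        intro i hi
        by_cases hia : i = a
        · rw [hia, flip_self, hv a ha]
          cases h1 : x a <;> cases h2 : u a <;> simp_all
        · rw [flip_of_ne _ hia, hv i hi]
          exact hx i (by simp [hia, hi])

/-- the number of points that agree with `u` outside `S` and satisfy `φ` -/
noncomputable def cnt (S : Finset ι) (φ : Set (ι → Bool)) (u : ι → Bool) : ℕ :=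
  Nat.card {x : ι → Bool // (∀ i ∉ S, x i = u i) ∧ x ∈ φ}

theorem tour_sel (S : Finset ι) (φ : Set (ι → Bool))
    (hφ : ∀ x y : ι → Bool, (∀ i ∉ S, x i = y i) → x ∈ φ → y ∈ φ) (R : Finset ι) :
    Disjoint R S → ∀ u : ι → Bool, ∃ v T, (∀ i ∉ R ∪ S, v i = u i) ∧
    T + 1 ≤ 2 ^ R.card + cnt (R ∪ S) φ u ∧
    Tour (cube ι) T u v {x | (∀ i ∉ R ∪ S, x i = u i) ∧ x ∈ φ} := by
  induction R using Finset.induction_on with
  | empty =>
    intro _ u
    by_cases hu : u ∈ φ
    · obtain ⟨v, hv, h⟩ := tour_free S u
      refine ⟨v, 2 ^ S.card - 1, ?_, ?_, ?_⟩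
      · simpa using hv
      · have hpos : 1 ≤ 2 ^ S.card := Nat.one_le_two_pow
        have : 2 ^ S.card ≤ cnt (∅ ∪ S) φ u := by
          unfold cnt
          rw [Finset.empty_union]
          let f : Finset S → {x : ι → Bool // (∀ i ∉ S, x i = u i) ∧ x ∈ φ} := fun A =>
            ⟨fun i => if h : i ∈ S then decide (⟨i, h⟩ ∈ A) else u i, by
              refine ⟨fun i hi => by simp [hi], ?_⟩
              refine hφ u _ (fun i hi => by simp [hi]) hu⟩
          have hf : Function.Injective f := by
            intro A B hAB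
            ext ⟨i, hi⟩
            have := congrFun (congrArg Subtype.val hAB) i
            simpa [f, hi] using this
          have := Nat.card_le_card_of_injective f hf
          simpa using this
        simp only [Finset.card_empty, pow_zero]
        omega
      · refine h.mono ?_
        rintro x ⟨hx, -⟩
        simpa using hx
    · refine ⟨u, 0, fun _ _ => rfl, by simp, ?_⟩
      refine (Tour.refl u).mono ?_
      rintro x ⟨hx, hx2⟩
      exfalso
      apply hu
      refine hφ x u (fun i hi => hx i (by simpa using hi)) hx2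
  | insert a R ha ih =>
    intro hdis u
    rw [Finset.disjoint_insert_left] at hdis
    obtain ⟨haS, hdis⟩ := hdis
    have haRS : a ∉ R ∪ S := by simp [ha, haS]
    obtain ⟨v, T1, hv, hT1, h1⟩ := ih hdis u
    obtain ⟨z, T2, hz, hT2, h2⟩ := ih hdis (flip a v)
    refine ⟨z, T1 + 1 + T2, ?_, ?_, ?_⟩
    · intro i hi
      have hia : i ≠ a := fun h => hi (by simp [h])
      have hi2 : i ∉ R ∪ S := fun h => hi (by
        simp only [Finset.mem_union, Finset.mem_insert] at h ⊢
        tauto)
      rw [hz i hi2, flip_of_ne _ hia, hv i hi2]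
    · rw [Finset.card_insert_of_notMem ha, pow_succ]
      have key : cnt (R ∪ S) φ u + cnt (R ∪ S) φ (flip a v) ≤ cnt (insert a R ∪ S) φ u := by
        unfold cnt
        rw [← Nat.card_sum]
        let f : ({x : ι → Bool // (∀ i ∉ R ∪ S, x i = u i) ∧ x ∈ φ} ⊕
            {x : ι → Bool // (∀ i ∉ R ∪ S, x i = flip a v i) ∧ x ∈ φ}) →
            {x : ι → Bool // (∀ i ∉ insert a R ∪ S, x i = u i) ∧ x ∈ φ} :=
          Sum.elim (fun x => ⟨x.1, fun i hi => x.2.1 i (fun h => hi (by
              simp only [Finset.mem_union, Finset.mem_insert] at h ⊢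
              tauto)), x.2.2⟩)
            (fun x => ⟨x.1, fun i hi => by
              have hia : i ≠ a := fun h => hi (by simp [h])
              have hi2 : i ∉ R ∪ S := fun h => hi (by
                simp only [Finset.mem_union, Finset.mem_insert] at h ⊢
                tauto)
              rw [x.2.1 i hi2, flip_of_ne _ hia, hv i hi2], x.2.2⟩)
        apply Nat.card_le_card_of_injective f
        rintro (⟨x, hx⟩ | ⟨x, hx⟩) (⟨y, hy⟩ | ⟨y, hy⟩) hxy
        · simp only [f, Sum.elim_inl, Subtype.mk.injEq] at hxy
          subst hxy; rfl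
        · exfalso
          simp only [f, Sum.elim_inl, Sum.elim_inr, Subtype.mk.injEq] at hxy
          subst hxy
          have e1 := hx.1 a haRS
          have e2 := hy.1 a haRS
          rw [flip_self, hv a haRS, e1] at e2
          cases h : u a <;> simp [h] at e2
        · exfalso
          simp only [f, Sum.elim_inl, Sum.elim_inr, Subtype.mk.injEq] at hxy
          subst hxy
          have e1 := hy.1 a haRS
          have e2 := hx.1 a haRS
          rw [flip_self, hv a haRS, e1] at e2
          cases h : u a <;> simp [h] at e2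
        · simp only [f, Sum.elim_inr, Subtype.mk.injEq] at hxy
          subst hxy; rfl
      omega
    · have h3 := (h1.trans (Tour.step (adj_flip a v))).trans h2
      refine h3.mono ?_
      rintro x ⟨hx, hxφ⟩
      by_cases hxa : x a = u a
      · left; left
        refine ⟨fun i hi => ?_, hxφ⟩
        by_cases hia : i = a
        · rw [hia, hxa]
        · refine hx i ?_
          simp only [Finset.mem_union, Finset.mem_insert] at hi ⊢
          tauto
      · right
        refine ⟨fun i hi => ?_, hxφ⟩
        by_cases hia : i = a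
        · rw [hia, flip_self, hv a haRS]
          cases h1 : x a <;> cases h2 : u a <;> simp_all
        · rw [flip_of_ne _ hia, hv i hi]
          refine hx i ?_
          simp only [Finset.mem_union, Finset.mem_insert] at hi ⊢
          tauto

/-- going from one point to another one -/
theorem tour_go (F : Finset ι) : ∀ u v : ι → Bool, (∀ i ∉ F, u i = v i) →
    Tour (cube ι) F.card u v ∅ := by
  induction F using Finset.induction_on with
  | empty =>
    intro u v h
    have : u = v := funext fun i => h i (by simp)
    subst this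
    exact Tour.stay 0 u
  | insert a F ha ih =>
    intro u v h
    rw [Finset.card_insert_of_notMem ha]
    by_cases hua : u a = v a
    · refine (ih u v ?_).pad (by omega)
      intro i hi
      by_cases hia : i = a
      · rw [hia, hua]
      · exact h i (by simp [hia, hi])
    · have h1 := ih (flip a u) v (by
        intro i hi
        by_cases hia : i = a
        · rw [hia, flip_self]
          cases h1 : u a <;> cases h2 : v a <;> simp_all
        · rw [flip_of_ne _ hia]
          exact h i (by simp [hia, hi]))
      have h2 := (Tour.step (adj_flip a u)).trans h1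
      rw [Set.union_empty, add_comm] at h2
      exact h2

/-- a closed tour that visits all points satisfying a condition on the coordinates outside `S` -/
theorem tour_closed (S : Finset ι) (φ : Set (ι → Bool))
    (hφ : ∀ x y : ι → Bool, (∀ i ∉ S, x i = y i) → x ∈ φ → y ∈ φ) (u : ι → Bool) (ℓ : ℕ)
    (hℓ : 2 ^ Sᶜ.card + Nat.card φ + Fintype.card ι ≤ ℓ) :
    Tour (cube ι) ℓ u u φ := by
  obtain ⟨v, T, hv, hT, h⟩ := tour_sel S φ hφ Sᶜ (disjoint_compl_left) u
  have e : Sᶜ ∪ S = Finset.univ := by
    ext i; simp [em']
  rw [e] at hv hT h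
  have hc : cnt Finset.univ φ u ≤ Nat.card φ := by
    unfold cnt
    let f : {x : ι → Bool // (∀ i ∉ (Finset.univ : Finset ι), x i = u i) ∧ x ∈ φ} → φ :=
      fun x => ⟨x.1, x.2.2⟩
    apply Nat.card_le_card_of_injective f
    intro x y hxy
    simp only [f, Subtype.mk.injEq] at hxy
    exact Subtype.ext hxy
  have h2 := h.trans (tour_go Finset.univ v u (fun i hi => absurd (Finset.mem_univ i) hi))
  rw [Finset.card_univ] at h2
  refine (h2.mono ?_).pad (by omega)
  intro x hx
  left
  exact ⟨fun i hi => absurd (Finset.mem_univ i) hi, hx⟩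

end Pool.Agent.K3h1.Rdv
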