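import Mathlib
import Pool.Agent.K3h1.RdvWalk

set_option autoImplicit false

/-!
Schedules made of closed tours, and the block design.
-/

namespace Pool.Agent.K3h1.Rdv

variable {V : Type*} {G : SimpleGraph V}

/-- `x` is a walk schedule; `x t` is the position at time `t + 1` -/
def IsSchedule (G : SimpleGraph V) (x : ℕ → V) : Prop :=
  ∀ t, x (t + 1) = x t ∨ G.Adj (x t) (x (t + 1))

/-- concatenation of closed walks of length `ℓ`; the blocks in which nothing is visited are spent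
at home -/
theorem exists_schedule' (G : SimpleGraph V) (home : V) (ℓ : ℕ) (hℓ : 0 < ℓ) (P : ℕ → Set V)
    (h : ∀ b, Tour G ℓ home home (P b)) :
    ∃ x : ℕ → V, IsSchedule G x ∧ (∀ b, ∀ p ∈ P b, ∃ t < ℓ, x (b * ℓ + t) = p) ∧
      (∀ b, P b = ∅ → ∀ t < ℓ, x (b * ℓ + t) = home) := by
  classical
  have h' : ∀ b, ∃ w : ℕ → V, w 0 = home ∧ w ℓ = home ∧
      (∀ t < ℓ, w (t + 1) = w t ∨ G.Adj (w t) (w (t + 1))) ∧ (∀ x ∈ P b, ∃ t ≤ ℓ, w t = x) ∧
      (P b = ∅ → ∀ t, w t = home) := by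
    intro b
    by_cases hb : P b = ∅
    · refine ⟨fun _ => home, rfl, rfl, fun _ _ => Or.inl rfl, ?_, fun _ _ => rfl⟩
      rw [hb]
      exact fun _ hx => absurd hx (Set.notMem_empty _)
    · obtain ⟨w, a1, a2, a3, a4⟩ := h b
      exact ⟨w, a1, a2, a3, a4, fun h => absurd h hb⟩
  choose w h1 h2 h3 h4 h5 using h'
  refine ⟨fun t => w (t / ℓ) (t % ℓ), ?_, ?_, ?_⟩
  · intro t
    have hm := Nat.mod_lt t hℓ
    have hdm := Nat.div_add_mod t ℓ
    by_cases h : t % ℓ + 1 < ℓ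
    · have e1 : (t + 1) / ℓ = t / ℓ := by
        rw [← hdm, add_assoc, Nat.mul_add_div hℓ, Nat.mul_add_div hℓ, Nat.div_eq_of_lt h,
          Nat.div_eq_of_lt hm]
      have e2 : (t + 1) % ℓ = t % ℓ + 1 := by
        conv_lhs => rw [← hdm, add_assoc, Nat.mul_add_mod, Nat.mod_eq_of_lt h]
      simp only [e1, e2]
      exact h3 _ _ hm
    · have e0 : t % ℓ + 1 = ℓ := by omega
      have e1 : (t + 1) / ℓ = t / ℓ + 1 := by
        conv_lhs => rw [← hdm, add_assoc, e0, Nat.mul_add_div hℓ, Nat.div_self hℓ]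
      have e2 : (t + 1) % ℓ = 0 := by
        conv_lhs => rw [← hdm, add_assoc, e0, Nat.mul_add_mod, Nat.mod_self]
      simp only [e1, e2]
      have := h3 (t / ℓ) (t % ℓ) hm
      rw [e0, h2] at this
      rw [h1]
      exact this
  · intro b p hp
    obtain ⟨t, ht, hw⟩ := h4 b p hp
    rcases ht.lt_or_eq with h | h
    · refine ⟨t, h, ?_⟩
      have e1 : (b * ℓ + t) / ℓ = b := by
        rw [mul_comm, Nat.mul_add_div hℓ, Nat.div_eq_of_lt h, add_zero]
      have e2 : (b * ℓ + t) % ℓ = t := by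
        rw [mul_comm, Nat.mul_add_mod, Nat.mod_eq_of_lt h]
      simp only [e1, e2]
      exact hw
    · refine ⟨0, hℓ, ?_⟩
      have e1 : (b * ℓ + 0) / ℓ = b := by
        rw [mul_comm, Nat.mul_add_div hℓ, Nat.zero_div, add_zero]
      have e2 : (b * ℓ + 0) % ℓ = 0 := by
        rw [mul_comm, Nat.mul_add_mod, Nat.zero_mod]
      simp only [e1, e2]
      rw [h1, ← hw, h, h2]
  · intro b hb t h
    have e1 : (b * ℓ + t) / ℓ = b := by
      rw [mul_comm, Nat.mul_add_div hℓ, Nat.div_eq_of_lt h, add_zero]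
    simp only [e1]
    exact h5 b hb _

/-! ### The block design -/

/-- The number of the block in which player type `i` visits portion `p` (`i < r`, `r = 2 ^ q`,
`p < 2 ^ (r - 1)`): digit `j ≠ i` is the digit number `(i xor j) - 1` of `p`, changed if `i < j`. -/
def blk (r i p : ℕ) : ℕ :=
  Nat.ofBits (fun j : Fin r => if (j : ℕ) = i then false
    else xor (p.testBit ((i ^^^ j) - 1)) (decide (i < j)))

theorem blk_lt (r i p : ℕ) : blk r i p < 2 ^ r := Nat.ofBits_lt_two_pow _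

theorem testBit_blk {r i p j : ℕ} (hj : j < r) : (blk r i p).testBit j =
    if j = i then false else xor (p.testBit ((i ^^^ j) - 1)) (decide (i < j)) := by
  unfold blk
  rw [Nat.testBit_ofBits_lt _ _ hj]

theorem testBit_blk_self {r i p : ℕ} (hi : i < r) : (blk r i p).testBit i = false := by
  rw [testBit_blk hi, if_pos rfl]

theorem testBit_blk_swap {r i j p : ℕ} (hi : i < r) (hj : j < r) (hij : i ≠ j) :
    (blk r j p).testBit i = !(blk r i p).testBit j := by
  rw [testBit_blk hi, testBit_blk hj, if_neg hij, if_neg (Ne.symm hij), Nat.xor_comm j i]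
  rcases Nat.lt_or_gt_of_ne hij with h | h
  · have h' : ¬ j < i := by omega
    simp [h, h']
  · have h' : ¬ i < j := by omega
    simp [h, h']

theorem blk_injective {q i p p' : ℕ} (hi : i < 2 ^ q) (hp : p < 2 ^ (2 ^ q - 1))
    (hp' : p' < 2 ^ (2 ^ q - 1)) (h : blk (2 ^ q) i p = blk (2 ^ q) i p') : p = p' := by
  apply Nat.eq_of_testBit_eq
  intro c
  by_cases hc : c < 2 ^ q - 1
  · have hc1 : c + 1 < 2 ^ q := by omega
    have hj : i ^^^ (c + 1) < 2 ^ q := Nat.xor_lt_two_pow hi hc1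
    have hne : i ^^^ (c + 1) ≠ i := by
      intro h0
      have h1 : i ^^^ (i ^^^ (c + 1)) = i ^^^ i := by rw [h0]
      rw [← Nat.xor_assoc, Nat.xor_self, Nat.zero_xor] at h1
      omega
    have h1 := congrArg (fun n => n.testBit (i ^^^ (c + 1))) h
    simp only [testBit_blk hj, if_neg hne] at h1
    rw [← Nat.xor_assoc, Nat.xor_self, Nat.zero_xor, Nat.add_sub_cancel] at h1
    simpa using h1
  · have h2 : 2 ^ (2 ^ q - 1) ≤ 2 ^ c := Nat.pow_le_pow_right (by norm_num) (by omega)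
    rw [Nat.testBit_lt_two_pow (hp.trans_le h2), Nat.testBit_lt_two_pow (hp'.trans_le h2)]

/-- The block design: if portion sets `Q p`, `p < 2 ^ (2 ^ q - 1)`, have closed tours of length `ℓ`
at `home`, then there are `2 ^ q` schedules such that for different `i`, `j` and all `p` either
`i` visits `Q p` while `j` is at home or vice versa, before time `2 ^ (2 ^ q) * ℓ`. -/
theorem exists_design (G : SimpleGraph V) (home : V) (ℓ : ℕ) (hℓ : 0 < ℓ) (q : ℕ)
    (Q : ℕ → Set V) (h : ∀ p < 2 ^ (2 ^ q - 1), Tour G ℓ home home (Q p)) :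
    ∃ x : ℕ → ℕ → V, (∀ i, IsSchedule G (x i)) ∧
      ∀ i < 2 ^ q, ∀ j < 2 ^ q, i ≠ j → ∀ p < 2 ^ (2 ^ q - 1),
        (∀ a ∈ Q p, ∃ t < 2 ^ (2 ^ q) * ℓ, x i t = a ∧ x j t = home) ∨
        (∀ a ∈ Q p, ∃ t < 2 ^ (2 ^ q) * ℓ, x j t = a ∧ x i t = home) := by
  classical
  let P : ℕ → ℕ → Set V := fun i b =>
    {a | ∃ p < 2 ^ (2 ^ q - 1), blk (2 ^ q) i p = b ∧ a ∈ Q p ∧ i < 2 ^ q}
  have hP : ∀ i b, Tour G ℓ home home (P i b) := by
    intro i b
    by_cases hb : ∃ p < 2 ^ (2 ^ q - 1), blk (2 ^ q) i p = b ∧ i < 2 ^ q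
    · obtain ⟨p, hp, hb, hi⟩ := hb
      refine (h p hp).mono ?_
      rintro a ⟨p', hp', hb', ha, -⟩
      rw [← blk_injective hi hp' hp (hb'.trans hb.symm)]
      exact ha
    · refine ((Tour.stay ℓ home)).mono ?_
      rintro a ⟨p, hp, hb', -, hi⟩
      exact absurd ⟨p, hp, hb', hi⟩ hb
  choose x hx1 hx2 hx3 using fun i => exists_schedule' G home ℓ hℓ (P i) (hP i)
  refine ⟨x, hx1, ?_⟩
  have key : ∀ i < 2 ^ q, ∀ j < 2 ^ q, ∀ p < 2 ^ (2 ^ q - 1),
      (blk (2 ^ q) i p).testBit j = true →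
      ∀ a ∈ Q p, ∃ t < 2 ^ (2 ^ q) * ℓ, x i t = a ∧ x j t = home := by
    intro i hi j hj p hp hb a ha
    obtain ⟨t, ht, hxt⟩ := hx2 i (blk (2 ^ q) i p) a ⟨p, hp, rfl, ha, hi⟩
    refine ⟨_, ?_, hxt, ?_⟩
    · have h1 := blk_lt (2 ^ q) i p
      calc blk (2 ^ q) i p * ℓ + t < blk (2 ^ q) i p * ℓ + ℓ := by omega
        _ = (blk (2 ^ q) i p + 1) * ℓ := by ring
        _ ≤ 2 ^ (2 ^ q) * ℓ := Nat.mul_le_mul_right _ h1
    · apply hx3 j _ _ t ht
      rw [Set.eq_empty_iff_forall_notMem]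
      rintro a' ⟨p', hp', hb', -, -⟩
      rw [← hb', testBit_blk_self hj] at hb
      exact absurd hb (by simp)
  intro i hi j hj hij p hp
  by_cases hb : (blk (2 ^ q) i p).testBit j = true
  · left
    exact key i hi j hj p hp hb
  · right
    apply key j hj i hi p hp
    rw [testBit_blk_swap hi hj hij]
    simpa using hb

end Pool.Agent.K3h1.Rdv
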