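import Mathlib
import Pool.Agent.K3h1.RdvSched

set_option autoImplicit false

/-!
Counting: the weights of the points of the hypercube, classes of weights, automorphisms.
-/

namespace Pool.Agent.K3h1.Rdv

/-! ### Central binomial coefficients -/

theorem cb_bound (k : ℕ) : Nat.centralBinom k ^ 2 * (2 * k + 1) ≤ 16 ^ k := by
  induction k with
  | zero => simp
  | succ n ih =>
    have h := Nat.succ_mul_centralBinom_succ n
    have h2 : (n + 1) ^ 2 * (Nat.centralBinom (n + 1) ^ 2 * (2 * (n + 1) + 1)) ≤
        (n + 1) ^ 2 * 16 ^ (n + 1) := by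
      calc (n + 1) ^ 2 * (Nat.centralBinom (n + 1) ^ 2 * (2 * (n + 1) + 1))
          = ((n + 1) * Nat.centralBinom (n + 1)) ^ 2 * (2 * n + 3) := by ring
        _ = (2 * (2 * n + 1) * Nat.centralBinom n) ^ 2 * (2 * n + 3) := by rw [h]
        _ = (Nat.centralBinom n ^ 2 * (2 * n + 1)) * (4 * ((2 * n + 1) * (2 * n + 3))) := by ring
        _ ≤ 16 ^ n * (4 * ((2 * n + 1) * (2 * n + 3))) := Nat.mul_le_mul_right _ ih
        _ ≤ 16 ^ n * (16 * (n + 1) ^ 2) := by
            apply Nat.mul_le_mul_left
            nlinarith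
        _ = (n + 1) ^ 2 * 16 ^ (n + 1) := by ring
    exact Nat.le_of_mul_le_mul_left h2 (by positivity)

/-- the largest probability of a value of the weight -/
noncomputable def del (n : ℕ) : ℝ := (n.choose (n / 2) : ℝ) / 2 ^ n

theorem del_sq (n : ℕ) : del n ^ 2 * (n + 1) ≤ 1 := by
  unfold del
  rcases Nat.even_or_odd' n with ⟨k, rfl | rfl⟩
  · have e : 2 * k / 2 = k := by omega
    rw [e, ← Nat.centralBinom_eq_two_mul_choose, div_pow, div_mul_eq_mul_div, div_le_one (by positivity)]
    have h := cb_bound k
    have h2 : ((Nat.centralBinom k : ℝ)) ^ 2 * (2 * k + 1) ≤ 16 ^ k := by exact_mod_cast h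
    have e2 : ((2 : ℝ) ^ (2 * k)) ^ 2 = 16 ^ k := by
      rw [← pow_mul, mul_comm 2 k, mul_assoc, pow_mul', show ((2 : ℝ) ^ (2 * 2)) = 16 by norm_num]
    rw [e2]
    push_cast
    exact h2
  · have e : (2 * k + 1) / 2 = k := by omega
    have e1 : Nat.centralBinom (k + 1) = 2 * (2 * k + 1).choose k := by
      rw [Nat.centralBinom_eq_two_mul_choose, show 2 * (k + 1) = (2 * k + 1) + 1 by ring,
        Nat.choose_succ_succ, ← Nat.choose_symm_half k]
      ring
    have h := cb_bound (k + 1)
    rw [e1] at h
    have h2 : (2 * ((2 * k + 1).choose k : ℝ)) ^ 2 * (2 * (k + 1) + 1) ≤ 16 ^ (k + 1) := by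
      exact_mod_cast h
    rw [e, div_pow, div_mul_eq_mul_div, div_le_one (by positivity)]
    have e2 : ((2 : ℝ) ^ (2 * k + 1)) ^ 2 * 4 = 16 ^ (k + 1) := by
      rw [← pow_mul, show (2 * k + 1) * 2 = 4 * k + 2 by ring, pow_add, pow_mul, pow_succ 16 k]
      norm_num
      ring
    push_cast
    have hk : (0 : ℝ) ≤ ((2 * k + 1).choose k : ℝ) ^ 2 := by positivity
    nlinarith

theorem del_nonneg (n : ℕ) : 0 ≤ del n := by unfold del; positivity

theorem del_le (n : ℕ) : del n ≤ 1 / Real.sqrt (n + 1) := by
  have h := del_sq n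
  have hn : (0 : ℝ) < (n : ℝ) + 1 := by positivity
  rw [le_div_iff₀ (Real.sqrt_pos.2 hn)]
  have h2 : (del n * Real.sqrt (n + 1)) ^ 2 ≤ 1 ^ 2 := by
    rw [mul_pow, Real.sq_sqrt hn.le]
    simpa using h
  exact (pow_le_pow_iff_left₀ (mul_nonneg (del_nonneg n) (Real.sqrt_nonneg _)) zero_le_one
    two_ne_zero).1 h2

theorem del_tendsto : Filter.Tendsto del Filter.atTop (nhds 0) := by
  refine squeeze_zero del_nonneg del_le ?_
  have h1 : Filter.Tendsto (fun n : ℕ => ((n : ℝ) + 1)) Filter.atTop Filter.atTop :=
    Filter.tendsto_atTop_add_const_right _ _ tendsto_natCast_atTop_atTop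
  have h2 := Real.tendsto_sqrt_atTop.comp h1
  have h3 := h2.inv_tendsto_atTop
  refine h3.congr (fun n => ?_)
  simp [one_div]

/-! ### Weights -/

variable {ι : Type} [Fintype ι] [DecidableEq ι]

/-- the number of coordinates in `R` which are `true` -/
def wt (R : Finset ι) (x : ι → Bool) : ℕ := (R.filter (fun i => x i = true)).card

theorem card_wt_le (R : Finset ι) (w : ℕ) :
    (Nat.card {x : ι → Bool // wt R x = w} : ℝ) ≤ del R.card * 2 ^ Fintype.card ι := by
  have h1 : Nat.card {x : ι → Bool // wt R x = w} ≤ R.card.choose w * 2 ^ Rᶜ.card := by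
    let f : {x : ι → Bool // wt R x = w} → {p : Finset ι × Finset ι // p ∈
        Finset.powersetCard w R ×ˢ Finset.powerset Rᶜ} := fun x =>
      ⟨(R.filter (fun i => x.1 i = true), Rᶜ.filter (fun i => x.1 i = true)), by
        rw [Finset.mem_product, Finset.mem_powersetCard, Finset.mem_powerset]
        exact ⟨⟨Finset.filter_subset _ _, x.2⟩, Finset.filter_subset _ _⟩⟩
    have hf : Function.Injective f := by
      rintro ⟨x, hx⟩ ⟨y, hy⟩ hxy
      simp only [f, Subtype.mk.injEq, Prod.mk.injEq] at hxy
      apply Subtype.ext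
      funext i
      have : x i = true ↔ y i = true := by
        by_cases hi : i ∈ R
        · have := congrArg (fun s => i ∈ s) hxy.1
          simpa [hi] using this
        · have := congrArg (fun s => i ∈ s) hxy.2
          simpa [hi] using this
      cases h1 : x i <;> cases h2 : y i <;> simp_all
    have := Nat.card_le_card_of_injective f hf
    rw [Nat.card_eq_fintype_card (α := {p : Finset ι × Finset ι // p ∈
        Finset.powersetCard w R ×ˢ Finset.powerset Rᶜ}), Fintype.card_coe, Finset.card_product,
      Finset.card_powersetCard, Finset.card_powerset] at this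
    exact this
  have h2 : (Nat.card {x : ι → Bool // wt R x = w} : ℝ) ≤
      (R.card.choose (R.card / 2) : ℝ) * 2 ^ Rᶜ.card := by
    have : Nat.card {x : ι → Bool // wt R x = w} ≤ R.card.choose (R.card / 2) * 2 ^ Rᶜ.card :=
      h1.trans (Nat.mul_le_mul_right _ (Nat.choose_le_middle _ _))
    exact_mod_cast this
  refine h2.trans (le_of_eq ?_)
  unfold del
  have e : Fintype.card ι = R.card + Rᶜ.card := (Finset.card_add_card_compl R).symm
  rw [e, pow_add]
  field_simp

/-- the number of points with weight less than `w` -/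
noncomputable def cum (R : Finset ι) (w : ℕ) : ℕ := Nat.card {x : ι → Bool // wt R x < w}

theorem cum_mono (R : Finset ι) : Monotone (cum R) := by
  intro a b hab
  unfold cum
  let f : {x : ι → Bool // wt R x < a} → {x : ι → Bool // wt R x < b} :=
    fun x => ⟨x.1, x.2.trans_le hab⟩
  exact Nat.card_le_card_of_injective f (fun x y h => Subtype.ext (Subtype.mk.inj h))

theorem card_cube : Nat.card (ι → Bool) = 2 ^ Fintype.card ι := by
  simp

theorem cum_le (R : Finset ι) (w : ℕ) : cum R w ≤ 2 ^ Fintype.card ι := by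
  rw [← card_cube]
  exact Nat.card_le_card_of_injective _ Subtype.val_injective

theorem cum_wt_lt (R : Finset ι) (x : ι → Bool) : cum R (wt R x) < 2 ^ Fintype.card ι := by
  rw [← card_cube]
  unfold cum
  rw [Nat.card_eq_fintype_card, Nat.card_eq_fintype_card]
  exact Fintype.card_subtype_lt (x := x) (lt_irrefl _)

/-- the class of a weight -/
noncomputable def gcl (R : Finset ι) (m w : ℕ) : ℕ := m * cum R w / 2 ^ Fintype.card ι

theorem gcl_mono (R : Finset ι) (m : ℕ) : Monotone (gcl R m) := fun _ _ hab =>
  Nat.div_le_div_right (Nat.mul_le_mul_left _ (cum_mono R hab))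

theorem gcl_le (R : Finset ι) (m w : ℕ) : gcl R m w ≤ m := by
  unfold gcl
  apply Nat.div_le_of_le_mul
  rw [mul_comm]
  exact Nat.mul_le_mul_right _ (cum_le R w)

/-- the class of a point -/
noncomputable def cls (R : Finset ι) (m : ℕ) (x : ι → Bool) : ℕ := gcl R m (wt R x)

theorem cls_lt (R : Finset ι) {m : ℕ} (hm : 0 < m) (x : ι → Bool) : cls R m x < m := by
  unfold cls gcl
  rw [Nat.div_lt_iff_lt_mul (by positivity)]
  exact Nat.mul_lt_mul_of_pos_left (cum_wt_lt R x) hm

theorem card_cls_le (R : Finset ι) {m : ℕ} (hm : 0 < m) (p : ℕ) :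
    (Nat.card {x : ι → Bool // cls R m x = p} : ℝ) ≤
      2 ^ Fintype.card ι / m + del R.card * 2 ^ Fintype.card ι := by
  classical
  by_cases hne : ∃ x, cls R m x = p
  · have hne' : (Finset.univ.filter (fun x : ι → Bool => cls R m x = p)).Nonempty := by
      obtain ⟨x, hx⟩ := hne
      exact ⟨x, by simp [hx]⟩
    obtain ⟨x1, hx1, hmin⟩ := Finset.exists_min_image _ (wt R) hne'
    obtain ⟨x2, hx2, hmax⟩ := Finset.exists_max_image _ (wt R) hne'
    simp only [Finset.mem_filter, Finset.mem_univ, true_and] at hx1 hx2 hmin hmax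
    have h1 : p * 2 ^ Fintype.card ι ≤ m * cum R (wt R x1) := by
      have := Nat.div_mul_le_self (m * cum R (wt R x1)) (2 ^ Fintype.card ι)
      rwa [show m * cum R (wt R x1) / 2 ^ Fintype.card ι = p from hx1] at this
    have h2 : m * cum R (wt R x2) < (p + 1) * 2 ^ Fintype.card ι := by
      have := Nat.lt_div_mul_add (a := m * cum R (wt R x2)) (b := 2 ^ Fintype.card ι) (by positivity)
      rw [show m * cum R (wt R x2) / 2 ^ Fintype.card ι = p from hx2] at this
      linarith
    have h12 : wt R x1 ≤ wt R x2 := hmin x2 hx2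
    have h3 : Nat.card {x : ι → Bool // cls R m x = p} + cum R (wt R x1) ≤
        cum R (wt R x2) + Nat.card {x : ι → Bool // wt R x = wt R x2} := by
      unfold cum
      rw [← Nat.card_sum, ← Nat.card_sum]
      let f : ({x : ι → Bool // cls R m x = p} ⊕ {x : ι → Bool // wt R x < wt R x1}) →
          ({x : ι → Bool // wt R x < wt R x2} ⊕ {x : ι → Bool // wt R x = wt R x2}) :=
        Sum.elim (fun x => if h : wt R x.1 < wt R x2 then Sum.inl ⟨x.1, h⟩ else
          Sum.inr ⟨x.1, le_antisymm (hmax x.1 x.2) (not_lt.1 h)⟩)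
          (fun x => Sum.inl ⟨x.1, x.2.trans_le h12⟩)
      apply Nat.card_le_card_of_injective f
      rintro (⟨x, hx⟩ | ⟨x, hx⟩) (⟨y, hy⟩ | ⟨y, hy⟩) hxy
      · simp only [f, Sum.elim_inl] at hxy
        split_ifs at hxy with ha hb
        · simp only [Sum.inl.injEq, Subtype.mk.injEq] at hxy
          subst hxy; rfl
        · simp only [Sum.inr.injEq, Subtype.mk.injEq] at hxy
          subst hxy; rfl
      · exfalso
        simp only [f, Sum.elim_inl, Sum.elim_inr] at hxy
        split_ifs at hxy with ha
        simp only [Sum.inl.injEq, Subtype.mk.injEq] at hxy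
        subst hxy
        exact absurd hy (not_lt.2 (hmin x hx))
      · exfalso
        simp only [f, Sum.elim_inl, Sum.elim_inr] at hxy
        split_ifs at hxy with ha
        simp only [Sum.inl.injEq, Subtype.mk.injEq] at hxy
        subst hxy
        exact absurd hx (not_lt.2 (hmin x hy))
      · simp only [f, Sum.elim_inr, Sum.inl.injEq, Subtype.mk.injEq] at hxy
        subst hxy; rfl
    have h4 : (Nat.card {x : ι → Bool // cls R m x = p} : ℝ) + cum R (wt R x1) ≤
        cum R (wt R x2) + del R.card * 2 ^ Fintype.card ι := by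
      have := card_wt_le R (wt R x2)
      have h3' : (Nat.card {x : ι → Bool // cls R m x = p} : ℝ) + cum R (wt R x1) ≤
        cum R (wt R x2) + Nat.card {x : ι → Bool // wt R x = wt R x2} := by exact_mod_cast h3
      linarith
    have h1' : (p : ℝ) * 2 ^ Fintype.card ι ≤ m * cum R (wt R x1) := by exact_mod_cast h1
    have h2' : (m : ℝ) * cum R (wt R x2) < (p + 1) * 2 ^ Fintype.card ι := by exact_mod_cast h2
    have hm' : (0 : ℝ) < m := by exact_mod_cast hm
    have h5 : (cum R (wt R x2) : ℝ) - cum R (wt R x1) ≤ 2 ^ Fintype.card ι / m := by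
      rw [le_div_iff₀ hm']
      nlinarith
    linarith
  · have : IsEmpty {x : ι → Bool // cls R m x = p} := ⟨fun x => hne ⟨x.1, x.2⟩⟩
    rw [Nat.card_of_isEmpty]
    have := del_nonneg R.card
    simp only [Nat.cast_zero]
    positivity

theorem wt_le (R : Finset ι) (x : ι → Bool) : wt R x ≤ wt Finset.univ x := by
  unfold wt
  exact Finset.card_le_card (Finset.filter_subset_filter _ (Finset.subset_univ R))

theorem le_wt (R : Finset ι) (x : ι → Bool) : wt Finset.univ x - Rᶜ.card ≤ wt R x := by
  unfold wt
  have h : (Finset.univ.filter (fun i => x i = true)) ⊆ R.filter (fun i => x i = true) ∪ Rᶜ := by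
    intro i hi
    simp only [Finset.mem_filter, Finset.mem_univ, true_and] at hi
    by_cases h : i ∈ R <;> simp [h, hi]
  have := (Finset.card_le_card h).trans (Finset.card_union_le _ _)
  omega

/-- the weight `v` is bad if the class is not constant on `v - s, ..., v` -/
def bad (R : Finset ι) (m v : ℕ) : Prop := gcl R m (v - Rᶜ.card) ≠ gcl R m v

theorem cls_eq_of_not_bad {R : Finset ι} {m : ℕ} {x y : ι → Bool}
    (h : wt Finset.univ x = wt Finset.univ y) (hb : ¬ bad R m (wt Finset.univ x)) :
    cls R m x = cls R m y := by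
  have key : ∀ z : ι → Bool, ¬ bad R m (wt Finset.univ z) → cls R m z = gcl R m (wt Finset.univ z) := by
    intro z hz
    unfold bad at hz
    rw [not_not] at hz
    apply le_antisymm
    · exact gcl_mono R m (wt_le R z)
    · rw [← hz]
      exact gcl_mono R m (le_wt R z)
  rw [key x hb, key y (by rwa [← h]), h]

open Classical in
theorem card_bad_le (R : Finset ι) (m N : ℕ) :
    ((Finset.range N).filter (bad R m)).card ≤ m * Rᶜ.card := by
  have hsub : (Finset.range N).filter (bad R m) ⊆ (Finset.range m).biUnion (fun p =>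
      (Finset.range N).filter (fun v => gcl R m (v - Rᶜ.card) ≤ p ∧ p < gcl R m v)) := by
    intro v hv
    rw [Finset.mem_filter] at hv
    rw [Finset.mem_biUnion]
    have h1 : gcl R m (v - Rᶜ.card) < gcl R m v :=
      lt_of_le_of_ne (gcl_mono R m (Nat.sub_le _ _)) hv.2
    refine ⟨gcl R m (v - Rᶜ.card), ?_, ?_⟩
    · rw [Finset.mem_range]
      exact h1.trans_le (gcl_le R m v)
    · rw [Finset.mem_filter]
      exact ⟨hv.1, le_rfl, h1⟩
  refine (Finset.card_le_card hsub).trans (Finset.card_biUnion_le.trans ?_)
  rw [← Finset.card_range m, ← smul_eq_mul, Finset.card_range m]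
  conv_rhs => rw [← Finset.card_range m]
  apply Finset.sum_le_card_nsmul
  intro p _
  set A := (Finset.range N).filter (fun v => gcl R m (v - Rᶜ.card) ≤ p ∧ p < gcl R m v) with hA
  by_cases hne : A.Nonempty
  · have h1 : A ⊆ Finset.Ico (A.min' hne) (A.min' hne + Rᶜ.card) := by
      intro v hv
      rw [Finset.mem_Ico]
      refine ⟨Finset.min'_le _ _ hv, ?_⟩
      by_contra hcon
      have h2 := Finset.min'_mem A hne
      have h6 := (Finset.mem_filter.1 h2).2.2
      rw [hA, Finset.mem_filter] at hv
      have h3 : A.min' hne ≤ v - Rᶜ.card := by omega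
      have h4 := gcl_mono R m h3
      have h5 := hv.2.1
      omega
    have := Finset.card_le_card h1
    simpa using this
  · rw [Finset.not_nonempty_iff_eq_empty] at hne
    rw [hne]
    simp

theorem card_badpoints_le (R : Finset ι) (m : ℕ) :
    (Nat.card {x : ι → Bool // bad R m (wt Finset.univ x)} : ℝ) ≤
      m * Rᶜ.card * (del (Fintype.card ι) * 2 ^ Fintype.card ι) := by
  classical
  have h1 : Nat.card {x : ι → Bool // bad R m (wt Finset.univ x)} =
      (Finset.univ.filter (fun x : ι → Bool => bad R m (wt Finset.univ x))).card := by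
    rw [Nat.card_eq_fintype_card, Fintype.card_subtype]
  rw [h1]
  have h2 : (Finset.univ.filter (fun x : ι → Bool => bad R m (wt Finset.univ x))) ⊆
      ((Finset.range (Fintype.card ι + 1)).filter (bad R m)).biUnion (fun v =>
        Finset.univ.filter (fun x : ι → Bool => wt Finset.univ x = v)) := by
    intro x hx
    simp only [Finset.mem_filter, Finset.mem_univ, true_and] at hx
    rw [Finset.mem_biUnion]
    refine ⟨wt Finset.univ x, ?_, by simp⟩
    rw [Finset.mem_filter, Finset.mem_range]
    refine ⟨?_, hx⟩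
    have : wt Finset.univ x ≤ (Finset.univ : Finset ι).card := Finset.card_filter_le _ _
    rw [Finset.card_univ] at this
    omega
  have h3 : (((Finset.univ.filter (fun x : ι → Bool => bad R m (wt Finset.univ x))).card : ℕ) : ℝ) ≤
      ∑ v ∈ (Finset.range (Fintype.card ι + 1)).filter (bad R m),
        ((Finset.univ.filter (fun x : ι → Bool => wt Finset.univ x = v)).card : ℝ) := by
    exact_mod_cast (Finset.card_le_card h2).trans Finset.card_biUnion_le
  refine h3.trans ?_
  have h4 : ∀ v ∈ (Finset.range (Fintype.card ι + 1)).filter (bad R m),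
      ((Finset.univ.filter (fun x : ι → Bool => wt Finset.univ x = v)).card : ℝ) ≤
        del (Fintype.card ι) * 2 ^ Fintype.card ι := by
    intro v _
    have := card_wt_le (Finset.univ : Finset ι) v
    rw [Finset.card_univ, Nat.card_eq_fintype_card, Fintype.card_subtype] at this
    exact this
  refine (Finset.sum_le_card_nsmul _ _ _ h4).trans ?_
  rw [nsmul_eq_mul]
  apply mul_le_mul_of_nonneg_right
  · exact_mod_cast card_bad_le R m _
  · have := del_nonneg (Fintype.card ι)
    positivity

/-! ### Automorphisms -/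

theorem hom_dist (f : (ι → Bool) → (ι → Bool))
    (hf : ∀ x y, (cube ι).Adj x y → (cube ι).Adj (f x) (f y)) (F : Finset ι) :
    ∀ u v : ι → Bool, (∀ i ∉ F, u i = v i) → hammingDist (f u) (f v) ≤ F.card := by
  induction F using Finset.induction_on with
  | empty =>
    intro u v h
    have : u = v := funext fun i => h i (by simp)
    subst this
    simp
  | insert a F ha ih =>
    intro u v h
    rw [Finset.card_insert_of_notMem ha]
    by_cases hua : u a = v a
    · refine (ih u v ?_).trans (by omega)
      intro i hi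
      by_cases hia : i = a
      · rw [hia, hua]
      · exact h i (by simp [hia, hi])
    · have h1 := ih (flip a u) v (by
        intro i hi
        by_cases hia : i = a
        · rw [hia, flip_self]
          cases h1 : u a <;> cases h2 : v a <;> simp_all
        · rw [flip_of_ne _ hia]
          exact h i (by simp [hia, hi]))
      have h2 : hammingDist (f u) (f (flip a u)) = 1 := hf _ _ (adj_flip a u)
      have h3 := hammingDist_triangle (f u) (f (flip a u)) (f v)
      omega

theorem hom_dist_le (f : (ι → Bool) → (ι → Bool))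
    (hf : ∀ x y, (cube ι).Adj x y → (cube ι).Adj (f x) (f y)) (u v : ι → Bool) :
    hammingDist (f u) (f v) ≤ hammingDist u v := by
  have := hom_dist f hf (Finset.univ.filter (fun i => u i ≠ v i)) u v (by
    intro i hi
    by_contra h
    exact hi (by simp [h]))
  exact this

theorem iso_dist (π : cube ι ≃g cube ι) (u v : ι → Bool) :
    hammingDist (π u) (π v) = hammingDist u v := by
  apply le_antisymm
  · exact hom_dist_le π (fun x y h => π.map_adj_iff.2 h) u v
  · have := hom_dist_le π.symm (fun x y h => π.symm.map_adj_iff.2 h) (π u) (π v)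
    simpa using this

/-- the point zero -/
def zero : ι → Bool := fun _ => false

theorem wt_univ (x : ι → Bool) : wt Finset.univ x = hammingDist x zero := by
  unfold wt zero
  have h : hammingDist x (fun _ => false) =
    (Finset.univ.filter (fun i => x i ≠ false)).card := rfl
  rw [h]
  congr 1
  ext i
  simp

theorem wt_iso (π : cube ι ≃g cube ι) :
    wt Finset.univ (π zero) = wt Finset.univ (π.symm zero) := by
  rw [wt_univ, wt_univ, ← iso_dist π (π.symm zero) zero]
  simp only [RelIso.apply_symm_apply]
  rw [hammingDist_comm]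

/-- translations -/
def trans (c : ι → Bool) : cube ι ≃g cube ι where
  toFun x := fun i => xor (x i) (c i)
  invFun x := fun i => xor (x i) (c i)
  left_inv x := by funext i; simp
  right_inv x := by funext i; simp
  map_rel_iff' := by
    intro x y
    change hammingDist (fun i => xor (x i) (c i)) (fun i => xor (y i) (c i)) = 1 ↔
      hammingDist x y = 1
    have h : hammingDist (fun i => xor (x i) (c i)) (fun i => xor (y i) (c i)) =
        hammingDist x y :=
      hammingDist_comp (fun i b => xor b (c i)) (fun i a b hab => by simpa using hab)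
    rw [h]

theorem trans_apply (c x : ι → Bool) (i : ι) : trans c x i = xor (x i) (c i) := rfl

/-- the automorphisms which map `0` to `A` -/
def autEquiv (A : Set (ι → Bool)) : {π : cube ι ≃g cube ι // π zero ∈ A} ≃
    A × {π : cube ι ≃g cube ι // π zero = zero} where
  toFun π := (⟨π.1 zero, π.2⟩, ⟨π.1.trans (trans (π.1 zero)), by
    funext i
    simp [RelIso.trans_apply, trans_apply, zero]⟩)
  invFun p := ⟨p.2.1.trans (trans p.1.1), by
    have h : (p.2.1.trans (trans p.1.1)) zero = p.1.1 := by
      funext i
      rw [RelIso.trans_apply, p.2.2, trans_apply]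
      simp [zero]
    rw [h]
    exact p.1.2⟩
  left_inv π := by
    apply Subtype.ext
    apply RelIso.ext
    intro x
    funext i
    simp [RelIso.trans_apply, trans_apply]
  right_inv p := by
    obtain ⟨⟨c, hc⟩, ⟨σ, hσ⟩⟩ := p
    have h : (σ.trans (trans c)) zero = c := by
      funext i
      rw [RelIso.trans_apply, hσ, trans_apply]
      simp [zero]
    apply Prod.ext
    · exact Subtype.ext h
    · apply Subtype.ext
      apply RelIso.ext
      intro x
      funext i
      simp only [RelIso.trans_apply, trans_apply]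
      rw [hσ]
      simp [zero]

instance : Finite (cube ι ≃g cube ι) :=
  Finite.of_injective (fun π => (π : (ι → Bool) → (ι → Bool))) (fun _ _ h => RelIso.ext (congrFun h))

theorem card_aut (A : Set (ι → Bool)) :
    Nat.card {π : cube ι ≃g cube ι // π zero ∈ A} * 2 ^ Fintype.card ι =
      Nat.card A * Nat.card (cube ι ≃g cube ι) := by
  have h1 := Nat.card_congr (autEquiv A)
  have h2 := Nat.card_congr (autEquiv (Set.univ : Set (ι → Bool)))
  have h3 : Nat.card {π : cube ι ≃g cube ι // π zero ∈ (Set.univ : Set (ι → Bool))} =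
      Nat.card (cube ι ≃g cube ι) :=
    Nat.card_congr (Equiv.subtypeUnivEquiv (fun _ => Set.mem_univ _))
  rw [h3, Nat.card_prod, Nat.card_congr (Equiv.Set.univ _), card_cube] at h2
  rw [h1, Nat.card_prod, h2]
  ring

end Pool.Agent.K3h1.Rdv
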